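import Pool.Agent.H126U.STEnd

/-!
# Sato–Tate averages of products of quadratic twists of Jacobians over a number field

`K` is any number field, `C₁, …, C_r` are hyperelliptic curves `y² = f_j(x)` over `K` of any degrees
(all elliptic curves and all curves of genus two are of this kind), and for `d = (d₁, …, d_r)` the
abelian variety `A_d = ∏ Jac(C_{j, d_j})` is the product of the Jacobians of the quadratic twists
`d_j y² = f_j(x)`.  The conjugacy class `x_v(A_d)` of the normalized Frobenius in
`∏ USp(2 g_j)` is determined by the normalized traces of its powers on the `r` factors.  The group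
of signs `(±1)^r`, the centre of `∏ USp(2 g_j)`, acts on these classes; outside finitely many square
classes of the products of the `d_j` it is contained in the Sato–Tate group of `A_d`, so that a class
function and its average over the signs have the same integral.
-/

set_option autoImplicit false

namespace Pool.Agent.Results.MP_c481b3_nt.TwistFamilies

open NumberField IsDedekindDomain Filter Topology Polynomial

/-- Number of affine points of `d y² = f(x)` with coordinates in the extension of degree `m` of the
finite field `k`, that is, the field of the elements of the algebraic closure of `k` that are fixed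
by the `m`-th power of the Frobenius of `k`. -/
noncomputable def affineCount (k : Type) [Field k] (f : k[X]) (d : k) (m : ℕ) : ℕ :=
  Nat.card {P : AlgebraicClosure k × AlgebraicClosure k //
    P.1 ^ (Nat.card k ^ m) = P.1 ∧ P.2 ^ (Nat.card k ^ m) = P.2 ∧
    algebraMap k (AlgebraicClosure k) d * P.2 ^ 2 = aeval P.1 f}

/-- Number of points at infinity of the smooth projective model of `d y² = f(x)` over the same field:
one point if the degree of `f` is odd, otherwise the number of solutions of `d y² = a`, where `a` is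
the leading coefficient of `f`. -/
noncomputable def infinityCount (k : Type) [Field k] (f : k[X]) (d : k) (m : ℕ) : ℕ :=
  if Odd f.natDegree then 1 else
    Nat.card {y : AlgebraicClosure k // y ^ (Nat.card k ^ m) = y ∧
      algebraMap k (AlgebraicClosure k) d * y ^ 2 =
        algebraMap k (AlgebraicClosure k) f.leadingCoeff}

/-- Trace of the `m`-th power of the Frobenius at `v` on `H¹` of the smooth projective curve
`d y² = f(x)` (equivalently, of its Jacobian): it is `q^m + 1` minus the number of points over the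
field with `q^m` elements. -/
noncomputable def traceH1 {K : Type} [Field K] [NumberField K] (v : HeightOneSpectrum (𝓞 K))
    (f : (𝓞 K)[X]) (d : 𝓞 K) (m : ℕ) : ℤ :=
  haveI : v.asIdeal.IsMaximal := v.isMaximal
  letI : Field (𝓞 K ⧸ v.asIdeal) := Ideal.Quotient.field v.asIdeal
  (Ideal.absNorm v.asIdeal : ℤ) ^ m + 1 -
    (affineCount (𝓞 K ⧸ v.asIdeal) (f.map (Ideal.Quotient.mk v.asIdeal))
      (Ideal.Quotient.mk v.asIdeal d) m +
    infinityCount (𝓞 K ⧸ v.asIdeal) (f.map (Ideal.Quotient.mk v.asIdeal))
      (Ideal.Quotient.mk v.asIdeal d) m)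

/-- The class `x_v(A_d)`, given by the traces of its powers `1, 2, 3, …` on the factors: the `j`-th
component is the sequence of the traces of the `(m + 1)`-st powers of the Frobenius on
`H¹(C_{j, d_j})`, divided by `q^{(m + 1)/2}`. -/
noncomputable def frobClass {K : Type} [Field K] [NumberField K] {r : ℕ} (f : Fin r → (𝓞 K)[X])
    (d : Fin r → 𝓞 K) (v : HeightOneSpectrum (𝓞 K)) : Fin r → ℕ → ℝ :=
  fun j m => (traceH1 v (f j) (d j) (m + 1) : ℝ) /
    Real.sqrt ((Ideal.absNorm v.asIdeal : ℝ) ^ (m + 1))

/-- Multiplication of a class by a vector `s` of signs: the trace of the `(m + 1)`-st power of the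
`j`-th component is multiplied by `s_j^{m + 1}`. -/
def signAct {r : ℕ} (s : Fin r → ℤˣ) (x : Fin r → ℕ → ℝ) : Fin r → ℕ → ℝ :=
  fun j m => ((s j : ℤ) : ℝ) ^ (m + 1) * x j m

/-- The average of `F` over the signs. -/
noncomputable def signMean {r : ℕ} (F : (Fin r → ℕ → ℝ) → ℝ) (x : Fin r → ℕ → ℝ) : ℝ :=
  (1 / 2 ^ r : ℝ) * ∑ s : Fin r → ℤˣ, F (signAct s x)

/-- The average of `φ` over the primes `v` outside `S` of norm at most `X`. -/
noncomputable def average {K : Type} [Field K] [NumberField K]
    (S : Finset (HeightOneSpectrum (𝓞 K))) (X : ℕ) (φ : HeightOneSpectrum (𝓞 K) → ℝ) : ℝ :=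
  (∑ᶠ v ∈ {v : HeightOneSpectrum (𝓞 K) | v ∉ S ∧ Ideal.absNorm v.asIdeal ≤ X}, φ v) /
    ({v : HeightOneSpectrum (𝓞 K) | v ∉ S ∧ Ideal.absNorm v.asIdeal ≤ X}.ncard : ℝ)

/-- **Sato–Tate averages in families of quadratic twists.**  Let `T` be a finite set of indices `k`,
each with a vector `d k` of nonzero twists, such that for `k ≠ l` in `T` and every nonempty set `A` of
factors the product of the `d_j(k) d_j(l)` over `j ∈ A` is not a square in `K`, and let `S` be a finite
set of primes which contains all primes of bad reduction.  Let `F` be any function of the classes with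
`|F| ≤ b`, and let `F'` be its average over the signs; the value of `F'` at `x_v(A_{d(k)})` does not
depend on `k` (part 3).

1. For every `η > 0` and all sufficiently large `X`,
`∑_k (average_{N v ≤ X} F(x_v(A_{d(k)})) - average_{N v ≤ X} F'(x_v(A_{d(k)})))² ≤ (2^r - 1) b² + η`.

2. For every `δ > 0` and all sufficiently large `X`, at most `(2^r - 1) b² / δ²` of the `k ∈ T` have
averages of `F` and `F'` over `N v ≤ X` that differ by `δ` or more. -/
theorem result (K : Type) [Field K] [NumberField K] (r : ℕ) (f : Fin r → (𝓞 K)[X])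
    (κ : Type) (T : Finset κ) (d : κ → Fin r → 𝓞 K) (hd0 : ∀ k ∈ T, ∀ j, d k j ≠ 0)
    (hsep : ∀ k ∈ T, ∀ l ∈ T, k ≠ l → ∀ A : Finset (Fin r), A.Nonempty →
      ¬ IsSquare ((∏ j ∈ A, (d k j * d l j) : 𝓞 K) : K))
    (S : Finset (HeightOneSpectrum (𝓞 K)))
    (hS : ∀ v, v ∉ S → ∀ k ∈ T, ∀ j, 2 * d k j * (f j).leadingCoeff ∉ v.asIdeal ∧
      ((f j).map (Ideal.Quotient.mk v.asIdeal)).Separable)
    (F : (Fin r → ℕ → ℝ) → ℝ) (b : ℝ) (hF : ∀ x, |F x| ≤ b) :
    (∀ η : ℝ, 0 < η → ∀ᶠ X : ℕ in atTop,
      ∑ k ∈ T, (average S X (fun v => F (frobClass f (d k) v)) -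
        average S X (fun v => signMean F (frobClass f (d k) v))) ^ 2 ≤ (2 ^ r - 1) * b ^ 2 + η) ∧
    (∀ δ : ℝ, 0 < δ → ∀ᶠ X : ℕ in atTop,
      ({k : κ | k ∈ T ∧ δ ≤ |average S X (fun v => F (frobClass f (d k) v)) -
        average S X (fun v => signMean F (frobClass f (d k) v))|}.ncard : ℝ) ≤
          (2 ^ r - 1) * b ^ 2 / δ ^ 2) ∧
    (∀ k ∈ T, ∀ v, v ∉ S → signMean F (frobClass f (d k) v) =
      signMean F (frobClass f (fun _ => 1) v)) := by
  classical
  have hav : ∀ (X : ℕ) (φ : HeightOneSpectrum (𝓞 K) → ℝ),
      average S X φ = Pool.Agent.H126U.ST.mn (Pool.Agent.H126U.ST.VS S X) φ := by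
    intro X φ
    have hset : {v : HeightOneSpectrum (𝓞 K) | v ∉ S ∧ Ideal.absNorm v.asIdeal ≤ X} =
        ((Pool.Agent.H126U.ST.VS S X : Finset (HeightOneSpectrum (𝓞 K))) :
          Set (HeightOneSpectrum (𝓞 K))) := by
      ext v
      have h1 : v ∈ Pool.Agent.H126U.VX K X ↔ Ideal.absNorm v.asIdeal ≤ X :=
        Pool.Agent.H126U.mem_VX K
      simp only [Pool.Agent.H126U.ST.VS, Finset.coe_filter, h1, Set.mem_ofPred_eq]
      exact and_comm
    unfold average Pool.Agent.H126U.ST.mn
    rw [hset, finsum_mem_coe_finset, Set.ncard_coe_finset]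
  have hgood : ∀ v, v ∉ S → ∀ k ∈ T, ∀ j, 2 * d k j ∉ v.asIdeal := fun v hv k hk j h =>
    (hS v hv k hk j).1 (v.asIdeal.mul_mem_right _ h)
  have hmain : ∀ η : ℝ, 0 < η → ∀ᶠ X : ℕ in atTop,
      ∑ k ∈ T, (average S X (fun v => F (frobClass f (d k) v)) -
        average S X (fun v => signMean F (frobClass f (d k) v))) ^ 2 ≤
          (2 ^ r - 1) * b ^ 2 + η := by
    intro η hη
    have h := Pool.Agent.H126U.ST.main f T d hsep hd0 S hgood F b hF η hη
    filter_upwards [h] with X hX
    simp only [hav]
    exact hX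
  refine ⟨hmain, ?_, ?_⟩
  · intro δ hδ
    have h := Pool.Agent.H126U.ST.count_of_sum T (fun X k =>
      average S X (fun v => F (frobClass f (d k) v)) -
        average S X (fun v => signMean F (frobClass f (d k) v))) hmain hδ
    filter_upwards [h] with X hX
    rw [le_div_iff₀ (by positivity)]
    have hset : {k : κ | k ∈ T ∧ δ ≤ |average S X (fun v => F (frobClass f (d k) v)) -
        average S X (fun v => signMean F (frobClass f (d k) v))|} =
        ((T.filter fun k => δ ≤ |average S X (fun v => F (frobClass f (d k) v)) -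
        average S X (fun v => signMean F (frobClass f (d k) v))| : Finset κ) : Set κ) := by
      ext k
      simp
    rw [hset, Set.ncard_coe_finset]
    exact hX
  · intro k hk v hv
    have h1 : frobClass f (d k) v = signAct (Pool.Agent.H126U.ST.sgn (d k) v)
        (frobClass f (fun _ => 1) v) :=
      Pool.Agent.H126U.ST.xx_eq (f := f) (d := d k) fun j =>
        ⟨fun h => hgood v hv k hk j (v.asIdeal.mul_mem_right _ h),
          fun h => hgood v hv k hk j (v.asIdeal.mul_mem_left _ h)⟩
    have h2 := Pool.Agent.H126U.ST.bar_eq F (Pool.Agent.H126U.ST.sgn (d k) v)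
      (frobClass f (fun _ => 1) v)
    have h3 := Pool.Agent.H126U.ST.bar_eq F 1 (frobClass f (fun _ => 1) v)
    have h4 : signAct (1 : Fin r → ℤˣ) (frobClass f (fun _ => 1) v) =
        frobClass f (fun _ => 1) v := by
      funext j m
      unfold signAct
      simp
    rw [h1]
    have h5 : signMean F (signAct (Pool.Agent.H126U.ST.sgn (d k) v) (frobClass f (fun _ => 1) v)) =
        signMean F (signAct (1 : Fin r → ℤˣ) (frobClass f (fun _ => 1) v)) := h2.trans h3.symm
    rw [h5, h4]

end Pool.Agent.Results.MP_c481b3_nt.TwistFamilies
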